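import Pool.Agent.Helper40.ZX.Fin
import Pool.Agent.Helper40.ZU.All

/-!
The theorem on isometric extensions of maps with countably many ergodic measures.
-/

open MeasureTheory

namespace Pool.Agent.Helper40.ZX

open Pool.Agent.Helper40.ZU (u_XFN u_XGC)
open Pool.Agent.Helper40.ZXP (Base ergodicMeasures Adm)
open Pool.Agent.Helper40.GAP (AffineZero)
open Pool.Agent.Helper40.GZP (IsoExt Rot FamSet)
open Pool.Agent.Helper40.DZP (Vanish)
open Pool.Agent.Helper40.Mob (TwistedDisjoint)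

universe u

/-- part 1 -/
theorem all_one (X Y : Type) [MetricSpace X] [CompactSpace X] [MeasurableSpace X]
    [BorelSpace X] [MetricSpace Y] [CompactSpace Y] [MeasurableSpace Y] [BorelSpace Y]
    (S : C(Y, Y)) (π : X → Y) (T : X → X) (ρ : X → X → ℝ) (F : X → ℂ) (hI : IsoExt π S T ρ)
    (hA : Adm π S T F) (x : X) : Vanish T F x := by
  rcases hA with ⟨hB, hT, hF, hC, hc⟩ | ⟨hM, hτ, hF⟩
  · exact fin_one u_XFN X Y S π T ρ F hB hI hT hF hC hc x
  · exact Pool.Agent.Helper40.GA.aff_one (fun X _ _ r π S τ ρ F hI hA x =>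
      Pool.Agent.Helper40.IZ.all_one X r π S τ ρ F hI hA x) X Y S π T ρ F hM hI hτ hF x

/-- part 2 -/
theorem all_two (B : Type u) [CStarAlgebra B] (Y : Type)
    [MetricSpace Y] [CompactSpace Y] [MeasurableSpace Y] [BorelSpace Y]
    (S : C(Y, Y)) (α : B →⋆ₐ[ℂ] B) (π : C(Y, ℂ) →⋆ₐ[ℂ] B) (hM : Base S ∨ AffineZero S)
    (hr : Rot S α π) (a : B)
    (ha : a ∈ closure (Submodule.span ℂ (FamSet α π) : Set B)) : TwistedDisjoint α a := by
  rcases hM with hM | hM
  · exact fin_two u_XGC Pool.Agent.Helper40.GA.y_CSP B Y S α π hM hr a ha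
  · exact Pool.Agent.Helper40.GA.aff_two (fun B _ r S α π hS hr a ha =>
      Pool.Agent.Helper40.DZ.fin_two Pool.Agent.Helper40.DZ.all_CSP4
        Pool.Agent.Helper40.DZ.all_GBS Pool.Agent.Helper40.DZ.all_ZEA B r S α π hS hr a ha)
      B Y S α π hM hr a ha

end Pool.Agent.Helper40.ZX
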