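import Pool.Agent.Helper40.ZX.Pub
import Pool.Agent.Helper40.ZU.Stmts2
import Pool.Agent.Helper40.GZ.Pub
import Pool.Agent.Helper40.GA.Tor

/-!
From the statements XFN and XGC of the sheet ZU to the hand-in on isometric extensions.
-/

open Finset Filter MeasureTheory Topology
open scoped ComplexConjugate

namespace Pool.Agent.Helper40.ZX

open Pool.Agent.Helper98.ZA (pr)
open Pool.Agent.Helper98.ZB (Tw)
open Pool.Agent.Helper98.GY (GoodC ST_CSP)
open Pool.Agent.Helper40.ZU
open Pool.Agent.Helper40.ZXP (Base ergodicMeasures Adm)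
open Pool.Agent.Helper40.GAP (Triangular AffineZero)
open Pool.Agent.Helper40.GZP (IsoExt FibreCts Rot FamSet haar shift)
open Pool.Agent.Helper40.DZP (Vanish)
open Pool.Agent.Helper40.Mob (TwistedDisjoint)

universe u

/-- triangular systems -/
theorem fi_of_triangular {Y : Type} [MeasurableSpace Y] [StandardBorelSpace Y] {ν : Measure Y}
    {S : Y → Y} (h : Triangular S ν) : Fi ν S := by
  obtain ⟨N, u, f, hu, hf, hS, A, hA, hA0, hinj⟩ := h
  let v : ℕ → Y → ℂ := fun k y => if h : k < N then u ⟨k, h⟩ y else 1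
  have hv : ∀ (k : ℕ) (h : k < N), v k = u ⟨k, h⟩ := by
    intro k h
    funext y
    simp [v, h]
  have hv' : ∀ (k : ℕ) (_ : ¬ k < N), v k = fun _ => 1 := by
    intro k h
    funext y
    simp [v, h]
  have hvm : ∀ k, Measurable (v k) := by
    intro k
    by_cases h : k < N
    · rw [hv k h]
      exact (hu _).1
    · rw [hv' k h]
      exact measurable_const
  refine ⟨v, N, ⟨hvm, fun k y => ?_, fun k => ?_⟩, fun s hs => ?_⟩
  · by_cases h : k < N
    · rw [hv k h]
      exact (hu _).2 y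
    · rw [hv' k h]
      simp
  · by_cases h : k < N
    · refine ⟨fun z => f ⟨k, h⟩ (fun j : Fin N => if hj : j.1 < k then z ⟨j.1, hj⟩ else 1), ?_, ?_⟩
      · refine (hf ⟨k, h⟩).1.comp (measurable_pi_lambda _ fun j => ?_)
        by_cases hj : j.1 < k
        · simp only [hj, dite_true]
          exact measurable_pi_apply _
        · simp only [hj, dite_false]
          exact measurable_const
      · filter_upwards [hS ⟨k, h⟩] with y hy
        rw [hv k h, hy, mul_comm]
        congr 1
        refine (hf ⟨k, h⟩).2 _ _ fun j hj => ?_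
        have hj' : j.1 < k := hj
        simp only [hj', dite_true]
        rw [hv j.1 (hj'.trans h)]
    · refine ⟨fun _ => 1, measurable_const, Eventually.of_forall fun y => ?_⟩
      rw [hv' k h]
      simp
  · have hst : StandardBorelSpace A := hA.standardBorel
    have hpm : ∀ M : MeasurableSpace Y, (∀ k, Measurable[M] (v k)) → Measurable[M] (pr v N) :=
      fun M h => @measurable_pi_lambda Y (Fin N) (fun _ => ℂ) M _ _ fun i => h i
    have hU : Measurable (fun y : A => pr v N y.1) :=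
      (hpm _ hvm).comp measurable_subtype_coe
    have hUi : Function.Injective (fun y : A => pr v N y.1) := by
      intro y y' hyy
      refine Subtype.ext (hinj y.1 y.2 y'.1 y'.2 fun i => ?_)
      have h1 : v i y.1 = v i y'.1 := congrFun hyy i
      rw [hv i.1 i.2] at h1
      exact h1
    have hEm : MeasurableEmbedding (fun y : A => pr v N y.1) := hU.measurableEmbedding hUi
    have hW : MeasurableSet ((fun y : A => pr v N y.1) '' (Subtype.val ⁻¹' s)) :=
      hEm.measurableSet_image.2 (measurable_subtype_coe hs)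
    refine ⟨pr v N ⁻¹' ((fun y : A => pr v N y.1) '' (Subtype.val ⁻¹' s)), ⟨_, hW, rfl⟩, ?_⟩
    have hae : ∀ᵐ y ∂ν, y ∈ A := by
      rw [ae_iff]
      exact hA0
    refine eventuallyEq_set.2 ?_
    filter_upwards [hae] with y hy
    constructor
    · intro hys
      exact ⟨⟨y, hy⟩, hys, rfl⟩
    · rintro ⟨y', hy', he⟩
      have : y' = ⟨y, hy⟩ := hUi he
      rw [this] at hy'
      exact hy'

/-- part 1 -/
theorem fin_one (hX : ST_XFN) (X Y : Type) [MetricSpace X] [CompactSpace X] [MeasurableSpace X]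
    [BorelSpace X] [MetricSpace Y] [CompactSpace Y] [MeasurableSpace Y] [BorelSpace Y]
    (S : C(Y, Y)) (π : X → Y) (T : X → X) (ρ : X → X → ℝ) (F : X → ℂ) (hB : Base S)
    (hI : IsoExt π S T ρ) (hT : Measurable T) (hF : Measurable F) (hC : ∃ C : ℝ, ∀ x, ‖F x‖ ≤ C)
    (hc : ∀ ν ∈ ergodicMeasures S, FibreCts ν π T ∧ FibreCts ν π F) (x : X) : Vanish T F x :=
  hX X Y π S T ρ hI S.continuous hT hB.1
    (fun ν h1 h2 => ⟨fi_of_triangular (hB.2 ν ⟨h1, h2⟩), (hc ν ⟨h1, h2⟩).1⟩) F hF hC
    (fun ν h1 h2 => (hc ν ⟨h1, h2⟩).2) x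

/-- part 2 -/
theorem fin_two (hG : ST_XGC) (hC : ST_CSP.{u}) (B : Type u) [CStarAlgebra B] (Y : Type)
    [MetricSpace Y] [CompactSpace Y] [MeasurableSpace Y] [BorelSpace Y]
    (S : C(Y, Y)) (α : B →⋆ₐ[ℂ] B) (π : C(Y, ℂ) →⋆ₐ[ℂ] B) (hB : Base S) (hr : Rot S α π) (a : B)
    (ha : a ∈ closure (Submodule.span ℂ (FamSet α π) : Set B)) : TwistedDisjoint α a :=
  hC B Y S α π (hG Y S S.continuous hB.1
    fun ν h1 h2 => fi_of_triangular (hB.2 ν ⟨h1, h2⟩)) hr a ha

/-- part 3 -/
theorem fin_three (N : ℕ) (f : Fin N → C(UnitAddTorus (Fin N), UnitAddCircle))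
    (hd : ∀ i x x', (∀ j, j < i → x j = x' j) → f i x = f i x')
    (hc : (ergodicMeasures (shift fun i => f i)).Countable) : Base (shift fun i => f i) := by
  exact ⟨hc, fun ν _ => Pool.Agent.Helper40.GA.tri_of hd ν⟩

end Pool.Agent.Helper40.ZX
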