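import Mathlib
import Pool.Agent.Helper40.GA.Pub

/-!
Definitions used in the statement on isometric extensions of maps with countably many ergodic
measures.
-/

open MeasureTheory

namespace Pool.Agent.Helper40.ZXP

open Pool.Agent.Helper40.GZP (FibreCts)
open Pool.Agent.Helper40.GAP (Triangular AffineZero)

/-- the ergodic probability measures of `S` -/
def ergodicMeasures {Y : Type} [MeasurableSpace Y] (S : Y → Y) : Set (Measure Y) :=
  {ν | IsProbabilityMeasure ν ∧ Ergodic S ν}

/-- `S` has at most countably many ergodic probability measures `ν`, and all the systems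
`(Y, ν, S)` are triangular -/
def Base {Y : Type} [MeasurableSpace Y] (S : Y → Y) : Prop :=
  (ergodicMeasures S).Countable ∧ ∀ ν ∈ ergodicMeasures S, Triangular S ν

/-- the hypotheses on `S`, the map `T` of `X` and the function `F` on `X` -/
def Adm {X Y : Type} [TopologicalSpace X] [TopologicalSpace Y] [MeasurableSpace X]
    [MeasurableSpace Y] (π : X → Y) (S : Y → Y) (T : X → X) (F : X → ℂ) : Prop :=
  (Base S ∧ Measurable T ∧ Measurable F ∧ (∃ C : ℝ, ∀ x, ‖F x‖ ≤ C) ∧
    ∀ ν ∈ ergodicMeasures S, FibreCts ν π T ∧ FibreCts ν π F) ∨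
  (AffineZero S ∧ Continuous T ∧ Continuous F)

end Pool.Agent.Helper40.ZXP
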